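import Mathlib

/-!
Adjoining a weak inverse of one element to a finite aperiodic monoid: the stack machine.
-/

namespace Pool.Agent.H302.RA

open Classical

variable {M : Type} [Monoid M]

/-- letters: elements of `M` and the new letter `n`. -/
inductive Lt (M : Type) where
  | m : M → Lt M
  | n : Lt M

/-- cascade of pops: the top `z` is multiplied on the left by the top frame as long as
`z ∈ aM`. -/
noncomputable def cas (a : M) : M → List M → M × List M
  | z, [] => (z, [])
  | z, p :: σ => if (∃ q, z = a * q) then cas a (p * z) σ else (z, p :: σ)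

noncomputable def step (a : M) : Option (M × List M) → Lt M → Option (M × List M)
  | none, _ => none
  | some c, .m x => some (c.1 * x, c.2)
  | some c, .n =>
      if h : ∃ p, (cas a c.1 c.2).1 = p * a then
        some (1, h.choose :: (cas a c.1 c.2).2) else none

noncomputable def out (a : M) : Option (M × List M) → Option M
  | none => none
  | some c => if (cas a c.1 c.2).2 = [] then some (cas a c.1 c.2).1 else none

noncomputable def obs (a : M) (c : Option (M × List M)) (u : List (Lt M)) : Option M :=
  out a (u.foldl (step a) c)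

theorem obs_append (a : M) (c : Option (M × List M)) (u v : List (Lt M)) :
    obs a c (u ++ v) = obs a (u.foldl (step a) c) v := by
  simp [obs, List.foldl_append]

theorem obs_cons (a : M) (c : Option (M × List M)) (l : Lt M) (v : List (Lt M)) :
    obs a c (l :: v) = obs a (step a c l) v := rfl

theorem foldl_none (a : M) (u : List (Lt M)) : u.foldl (step a) none = none := by
  induction u with
  | nil => rfl
  | cons l u ih => simpa [step] using ih

theorem obs_none (a : M) (u : List (Lt M)) : obs a none u = none := by
  simp [obs, foldl_none, out]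

/-- observational equivalence. -/
def Eqv (a : M) (c d : Option (M × List M)) : Prop := ∀ u, obs a c u = obs a d u

theorem Eqv.refl (a : M) (c : Option (M × List M)) : Eqv a c c := fun _ => rfl
theorem Eqv.symm {a : M} {c d : Option (M × List M)} (h : Eqv a c d) : Eqv a d c :=
  fun u => (h u).symm
theorem Eqv.trans {a : M} {c d e : Option (M × List M)} (h : Eqv a c d) (h' : Eqv a d e) :
    Eqv a c e := fun u => (h u).trans (h' u)
theorem Eqv.run {a : M} {c d : Option (M × List M)} (h : Eqv a c d) (u : List (Lt M)) :
    Eqv a (u.foldl (step a) c) (u.foldl (step a) d) := by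
  intro v
  rw [← obs_append, ← obs_append]; exact h _

theorem cas_nil (a z : M) : cas a z [] = (z, []) := by simp [cas]
theorem cas_pos (a z p : M) (σ : List M) (h : ∃ q, z = a * q) :
    cas a z (p :: σ) = cas a (p * z) σ := by rw [cas]; simp [h]
theorem cas_neg (a z : M) (σ : List M) (h : ¬ ∃ q, z = a * q) :
    cas a z σ = (z, σ) := by
  cases σ with
  | nil => exact cas_nil a z
  | cons p σ => rw [cas, if_neg h]

theorem cas_mul (a : M) (m : M) : ∀ (σ : List M) (z : M),
    cas a (z * m) σ = cas a ((cas a z σ).1 * m) (cas a z σ).2 := by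
  intro σ
  induction σ with
  | nil => intro z; simp [cas_nil]
  | cons p σ ih =>
    intro z
    by_cases h : ∃ q, z = a * q
    · have h' : ∃ q, z * m = a * q := by
        obtain ⟨q, rfl⟩ := h; exact ⟨q * m, by rw [mul_assoc]⟩
      rw [cas_pos a z p σ h, cas_pos a (z * m) p σ h', ← mul_assoc]
      exact ih (p * z)
    · rw [cas_neg a z _ h]

theorem cas_idem (a : M) (σ : List M) (z : M) :
    cas a (cas a z σ).1 (cas a z σ).2 = cas a z σ := by
  have := cas_mul a 1 σ z
  simpa using this.symm

theorem cas_red (a : M) : ∀ (σ : List M) (z : M), (∃ q, (cas a z σ).1 = a * q) →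
    (cas a z σ).2 = [] := by
  intro σ
  induction σ with
  | nil => intro z _; simp [cas_nil]
  | cons p σ ih =>
    intro z h
    by_cases hz : ∃ q, z = a * q
    · rw [cas_pos a z p σ hz] at h ⊢; exact ih _ h
    · rw [cas_neg a z _ hz] at h ⊢; exact absurd h hz

theorem cas_left (a : M) : ∀ (σ : List M) (z : M), ∃ p, (cas a z σ).1 = p * z := by
  intro σ
  induction σ with
  | nil => intro z; exact ⟨1, by simp [cas_nil]⟩
  | cons p σ ih =>
    intro z
    by_cases hz : ∃ q, z = a * q
    · rw [cas_pos a z p σ hz]
      obtain ⟨r, hr⟩ := ih (p * z)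
      exact ⟨r * p, by rw [hr, mul_assoc]⟩
    · rw [cas_neg a z _ hz]; exact ⟨1, by simp⟩

theorem eqv_of_cas (a : M) : ∀ (u : List (Lt M)) (c d : M × List M),
    cas a c.1 c.2 = cas a d.1 d.2 → obs a (some c) u = obs a (some d) u := by
  intro u
  induction u with
  | nil => intro c d h; simp [obs, out, h]
  | cons l u ih =>
    intro c d h
    cases l with
    | m x =>
      rw [obs_cons, obs_cons]
      exact ih (c.1 * x, c.2) (d.1 * x, d.2) (by
        show cas a (c.1 * x) c.2 = cas a (d.1 * x) d.2
        rw [cas_mul, cas_mul a x d.2 d.1, h])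
    | n =>
      rw [obs_cons, obs_cons]
      simp only [step, h]

theorem eqv_cas (a : M) (z : M) (σ : List M) :
    Eqv a (some (z, σ)) (some (cas a z σ)) :=
  fun u => eqv_of_cas a u _ _ (cas_idem a σ z).symm

/-- measure -/
noncomputable def mu (z : M) : ℕ := (Set.range (fun q : M => z * q)).ncard

variable [Finite M]

theorem mu_left (p z : M) : mu (p * z) ≤ mu z := by
  have : (Set.range (fun q : M => p * z * q)) = (fun x => p * x) '' (Set.range (fun q : M => z * q)) := by
    ext x; simp [Set.mem_range, Set.mem_image, mul_assoc]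
  unfold mu
  rw [this]
  exact Set.ncard_image_le (Set.toFinite _)

theorem mu_right (z m : M) : mu (z * m) ≤ mu z := by
  unfold mu
  apply Set.ncard_le_ncard _ (Set.toFinite _)
  rintro x ⟨q, rfl⟩
  exact ⟨m * q, by simp [mul_assoc]⟩

theorem mu_pos (z : M) : 0 < mu z := by
  unfold mu
  rw [Set.ncard_pos (Set.toFinite _)]
  exact ⟨z * 1, 1, rfl⟩

theorem mu_lt (a z m : M) (hz : ¬ ∃ q, z = a * q) (hzm : ∃ q, z * m = a * q) :
    mu (z * m) < mu z := by
  unfold mu
  apply Set.ncard_lt_ncard _ (Set.toFinite _)
  refine ⟨?_, ?_⟩
  · rintro x ⟨q, rfl⟩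
    exact ⟨m * q, by simp [mul_assoc]⟩
  · intro h
    obtain ⟨r, hr⟩ := h ⟨1, rfl⟩
    obtain ⟨q, hq⟩ := hzm
    apply hz
    refine ⟨q * r, ?_⟩
    simp only [mul_one] at hr
    rw [← mul_assoc, ← hq]; exact hr.symm

theorem mu_le (z : M) : mu z ≤ Nat.card M := by
  unfold mu
  rw [← Set.ncard_univ]
  exact Set.ncard_le_ncard (Set.subset_univ _) (Set.toFinite _)

theorem mu_cas (a z : M) (σ : List M) : mu (cas a z σ).1 ≤ mu z := by
  obtain ⟨p, hp⟩ := cas_left a σ z
  rw [hp]; exact mu_left p z

omit [Finite M] in
/-- Lemma K. -/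
theorem lemmaK (a : M) (z : M) (σ τ : List M) (he : σ = [] ↔ τ = [])
    (H : ∀ m : M, (∃ q, z * m = a * q) → Eqv a (some (z * m, σ)) (some (z * m, τ))) :
    Eqv a (some (z, σ)) (some (z, τ)) := by
  -- auxiliary statement by induction on words
  have key : ∀ u : List (Lt M),
      (∀ m : M, obs a (some (z * m, σ)) u = obs a (some (z * m, τ)) u) ∧
      (∀ (x : M) (κ : List M) (p r : M), p * a = z * r →
        obs a (some (x, κ ++ p :: σ)) u = obs a (some (x, κ ++ p :: τ)) u) := by
    -- B from A
    have BA : ∀ (u : List (Lt M)),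
        (∀ m : M, obs a (some (z * m, σ)) u = obs a (some (z * m, τ)) u) →
        (∀ (κ : List M) (x p r : M), p * a = z * r →
          (obs a (some (x, κ ++ p :: σ)) u = obs a (some (x, κ ++ p :: τ)) u) ∨
          (∃ x' κ', cas a x (κ ++ p :: σ) = (x', κ' ++ p :: σ) ∧
            cas a x (κ ++ p :: τ) = (x', κ' ++ p :: τ))) := by
      intro u hA κ
      induction κ with
      | nil =>
        intro x p r hp
        by_cases hx : ∃ q, x = a * q
        · left
          obtain ⟨q, rfl⟩ := hx
          have h1 : cas a (a * q) ([] ++ p :: σ) = cas a (z * (r * q)) σ := by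
            rw [List.nil_append, cas_pos a _ p σ ⟨q, rfl⟩, ← mul_assoc p a q, hp, mul_assoc]
          have h2 : cas a (a * q) ([] ++ p :: τ) = cas a (z * (r * q)) τ := by
            rw [List.nil_append, cas_pos a _ p τ ⟨q, rfl⟩, ← mul_assoc p a q, hp, mul_assoc]
          rw [eqv_of_cas a u (a * q, [] ++ p :: σ) (z * (r * q), σ) h1,
            eqv_of_cas a u (a * q, [] ++ p :: τ) (z * (r * q), τ) h2]
          exact hA _
        · right
          exact ⟨x, [], by rw [cas_neg a x _ hx], by rw [cas_neg a x _ hx]⟩
      | cons k κ ih =>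
        intro x p r hp
        by_cases hx : ∃ q, x = a * q
        · have h1 : cas a x (k :: κ ++ p :: σ) = cas a (k * x) (κ ++ p :: σ) := by
            rw [List.cons_append, cas_pos a _ k _ hx]
          have h2 : cas a x (k :: κ ++ p :: τ) = cas a (k * x) (κ ++ p :: τ) := by
            rw [List.cons_append, cas_pos a _ k _ hx]
          rw [eqv_of_cas a u (x, k :: κ ++ p :: σ) (k * x, κ ++ p :: σ) h1,
            eqv_of_cas a u (x, k :: κ ++ p :: τ) (k * x, κ ++ p :: τ) h2, h1, h2]
          exact ih (k * x) p r hp
        · right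
          exact ⟨x, k :: κ, by rw [cas_neg a x _ hx], by rw [cas_neg a x _ hx]⟩
    intro u
    induction u with
    | nil =>
      have hA : (∀ m : M, obs a (some (z * m, σ)) [] = obs a (some (z * m, τ)) []) := by
        intro m
        by_cases hm : ∃ q, z * m = a * q
        · exact H m hm []
        · simp only [obs, List.foldl_nil, out, cas_neg a _ _ hm, he]
      refine ⟨hA, ?_⟩
      intro x κ p r hp
      rcases BA [] hA κ x p r hp with h | ⟨x', κ', h1, h2⟩
      · exact h
      · simp [obs, out, h1, h2]
    | cons l u ih =>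
      obtain ⟨ihA, ihB⟩ := ih
      have hA : (∀ m : M, obs a (some (z * m, σ)) (l :: u) = obs a (some (z * m, τ)) (l :: u)) := by
        intro m
        by_cases hm : ∃ q, z * m = a * q
        · exact H m hm _
        · cases l with
          | m x =>
            rw [obs_cons, obs_cons]
            show obs a (some (z * m * x, σ)) u = obs a (some (z * m * x, τ)) u
            rw [mul_assoc]; exact ihA _
          | n =>
            rw [obs_cons, obs_cons]
            simp only [step, cas_neg a _ _ hm]
            by_cases hp : ∃ p, z * m = p * a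
            · rw [dif_pos hp, dif_pos hp]
              exact ihB 1 [] hp.choose m hp.choose_spec.symm
            · rw [dif_neg hp, dif_neg hp]
      refine ⟨hA, ?_⟩
      intro x κ p r hp
      cases l with
      | m y =>
        rw [obs_cons, obs_cons]
        exact ihB (x * y) κ p r hp
      | n =>
        rcases BA (Lt.n :: u) hA κ x p r hp with h | ⟨x', κ', h1, h2⟩
        · exact h
        · rw [obs_cons, obs_cons]
          simp only [step, h1, h2]
          by_cases hp' : ∃ p, x' = p * a
          · rw [dif_pos hp', dif_pos hp']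
            exact ihB 1 (hp'.choose :: κ') p r hp
          · rw [dif_neg hp', dif_neg hp']
  intro u
  have := (key u).1 1
  simpa using this

end Pool.Agent.H302.RA
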