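import Mathlib
import Pool.Agent.H302.RA.Basic

namespace Pool.Agent.H302.RA

open Classical

variable {M : Type} [Monoid M]

theorem finite_range_of_key {A B K : Type*} [Finite K] (f : A → B) (key : A → K)
    (h : ∀ x y, key x = key y → f x = f y) : (Set.range f).Finite := by
  apply Set.Finite.subset (Set.finite_range (fun k : Set.range key => f k.2.choose))
  rintro b ⟨x, rfl⟩
  refine ⟨⟨key x, x, rfl⟩, ?_⟩
  exact h _ _ (⟨key x, x, rfl⟩ : Set.range key).2.choose_spec

section fin
variable [Finite M]

/-- observations of waiting configurations of bounded measure -/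
def CC (a : M) (h : ℕ) : Set (List (Lt M) → Option M) :=
  Set.range (fun c : {c : M × List M // (¬ ∃ q, c.1 = a * q) ∧ mu c.1 ≤ h} => obs a (some c.1))

def DD (a : M) : Set (List (Lt M) → Option M) :=
  Set.range (fun z : M => obs a (some (z, [])))

theorem DD_fin (a : M) : (DD a).Finite := Set.finite_range _

theorem obs_mem (a : M) (h : ℕ) (y : M) (σ : List M) (hy : mu y ≤ h) :
    obs a (some (y, σ)) ∈ CC a h ∪ DD a := by
  have h1 : obs a (some (y, σ)) = obs a (some (cas a y σ)) := funext (eqv_cas a y σ)
  rw [h1]
  by_cases hr : ∃ q, (cas a y σ).1 = a * q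
  · right
    have h2 := cas_red a σ y hr
    refine ⟨(cas a y σ).1, ?_⟩
    show obs a (some ((cas a y σ).1, [])) = _
    rw [← h2]
  · left
    exact ⟨⟨cas a y σ, hr, (mu_cas a y σ).trans hy⟩, rfl⟩

theorem CC_fin (a : M) : ∀ h : ℕ, (CC a h).Finite := by
  intro h
  induction h with
  | zero =>
    have : CC a 0 = ∅ := by
      ext o
      simp only [CC, Set.mem_range, Set.mem_empty_iff_false, iff_false]
      rintro ⟨⟨c, hc1, hc2⟩, _⟩
      have := mu_pos c.1
      omega
    rw [this]; exact Set.finite_empty
  | succ h ih =>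
    have hfin : ((CC a h) ∪ DD a).Finite := ih.union (DD_fin a)
    haveI : Finite ↥((CC a h) ∪ DD a) := hfin.to_subtype
    have hmem : ∀ (c : {c : M × List M // (¬ ∃ q, c.1 = a * q) ∧ mu c.1 ≤ h + 1}) (m : M),
        (∃ q, c.1.1 * m = a * q) → obs a (some (c.1.1 * m, c.1.2)) ∈ CC a h ∪ DD a := by
      intro c m hm
      apply obs_mem
      have := mu_lt a c.1.1 m c.2.1 hm
      have := c.2.2
      omega
    apply finite_range_of_key
      (K := M × Prop × (M → Option ↥((CC a h) ∪ DD a)))
      (fun c : {c : M × List M // (¬ ∃ q, c.1 = a * q) ∧ mu c.1 ≤ h + 1} => obs a (some c.1))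
      (fun c => (c.1.1, (c.1.2 = []), fun m =>
        if hm : ∃ q, c.1.1 * m = a * q then some ⟨_, hmem c m hm⟩ else none))
    rintro ⟨⟨z, σ⟩, hc⟩ ⟨⟨z', τ⟩, hd⟩ hk
    simp only [Prod.mk.injEq] at hk
    obtain ⟨hz, hs, hf⟩ := hk
    subst hz
    apply funext
    apply lemmaK a z σ τ (by rw [hs])
    intro m hm
    have := congrFun hf m
    rw [dif_pos hm, dif_pos hm] at this
    have h2 := congrArg Subtype.val (Option.some.inj this)
    exact fun u => congrFun h2 u

/-- all observations -/
def RR (a : M) : Set (List (Lt M) → Option M) := Set.range (obs a)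

theorem RR_fin (a : M) : (RR a).Finite := by
  apply Set.Finite.subset (((CC_fin a (Nat.card M)).union (DD_fin a)).union
    (Set.finite_singleton (obs a none)))
  rintro o ⟨c, rfl⟩
  cases c with
  | none => right; rfl
  | some c => left; exact obs_mem a _ c.1 c.2 (mu_le _)

end fin

/-- the congruence -/
def cong (a : M) : Con (FreeMonoid (Lt M)) where
  r u v := ∀ c w, obs a c (u.toList ++ w) = obs a c (v.toList ++ w)
  iseqv := ⟨fun _ _ _ => rfl, fun h c w => (h c w).symm, fun h h' c w => (h c w).trans (h' c w)⟩
  mul' := by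
    intro u u' v v' h h' c w
    simp only [FreeMonoid.toList_mul, List.append_assoc]
    rw [h c, obs_append, h', ← obs_append]

/-- the extension -/
abbrev TT (a : M) : Type := (cong a).Quotient

def mk (a : M) (u : List (Lt M)) : TT a := (cong a).mk' (FreeMonoid.ofList u)

theorem mk_surj (a : M) (x : TT a) : ∃ u, x = mk a u := by
  obtain ⟨u, rfl⟩ := Con.mk'_surjective x
  exact ⟨u.toList, rfl⟩

theorem mk_append (a : M) (u v : List (Lt M)) : mk a (u ++ v) = mk a u * mk a v := by
  simp [mk]

theorem mk_nil (a : M) : mk a [] = 1 := rfl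

theorem mk_eq (a : M) (u v : List (Lt M)) :
    mk a u = mk a v ↔ ∀ c, Eqv a (u.foldl (step a) c) (v.foldl (step a) c) := by
  have h1 : mk a u = mk a v ↔ cong a (FreeMonoid.ofList u) (FreeMonoid.ofList v) := by
    unfold mk
    exact Con.eq _
  rw [h1]
  constructor
  · intro h c w
    have := h c w
    rw [← obs_append, ← obs_append]
    exact this
  · intro h c w
    have := h c w
    rw [← obs_append, ← obs_append] at this
    exact this

theorem TT_finite [Finite M] (a : M) : Finite (TT a) := by
  haveI : Finite ↥(RR a) := (RR_fin a).to_subtype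
  have hmem : ∀ (u : List (Lt M)) (o : ↥(RR a)), (fun v => o.1 (u ++ v)) ∈ RR a := by
    rintro u ⟨o, c, rfl⟩
    exact ⟨u.foldl (step a) c, by funext v; exact (obs_append a c u v).symm⟩
  have := finite_range_of_key (K := ↥(RR a) → ↥(RR a)) (fun u : List (Lt M) => mk a u)
    (fun u o => ⟨fun v => o.1 (u ++ v), hmem u o⟩) (by
      intro u v h
      rw [mk_eq]
      intro c w
      have h2 := congrArg Subtype.val (congrFun h ⟨obs a c, c, rfl⟩)
      have h3 := congrFun h2 w
      simp only at h3
      rw [← obs_append, ← obs_append]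
      exact h3)
  have huniv : (Set.range (fun u : List (Lt M) => mk a u)) = Set.univ := by
    ext x
    obtain ⟨u, rfl⟩ := mk_surj a x
    simp
  rw [huniv] at this
  exact Set.finite_univ_iff.mp this

/-- the embedding -/
def io (a : M) : M →* TT a where
  toFun m := mk a [Lt.m m]
  map_one' := by
    rw [← mk_nil, mk_eq]
    intro c u
    cases c with
    | none => rfl
    | some c => simp [step]
  map_mul' x y := by
    rw [← mk_append, mk_eq]
    intro c u
    cases c with
    | none => rfl
    | some c => simp [step, mul_assoc]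

/-- the new element -/
def nu (a : M) : TT a := mk a [Lt.n]

theorem io_def (a m : M) : io a m = mk a [Lt.m m] := rfl

theorem io_inj (a : M) : Function.Injective (io a) := by
  intro x y h
  rw [io_def, io_def, mk_eq] at h
  have := h (some (1, [])) []
  simpa [obs, step, out, cas_nil] using this

/-- effect of reading `n` then `a * q`. -/
theorem run_na (a : M) (c : Option (M × List M)) (q : M) :
    Eqv a ([Lt.n, Lt.m (a * q)].foldl (step a) c) none ∨
    Eqv a ([Lt.n, Lt.m (a * q)].foldl (step a) c) ([Lt.m q].foldl (step a) c) := by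
  cases c with
  | none => left; exact Eqv.refl _ _
  | some c =>
    obtain ⟨z, σ⟩ := c
    by_cases hp : ∃ p, (cas a z σ).1 = p * a
    · right
      intro u
      simp only [List.foldl_cons, List.foldl_nil, step]
      rw [dif_pos hp]
      apply eqv_of_cas a u (1 * (a * q), hp.choose :: (cas a z σ).2) (z * q, σ)
      show cas a (1 * (a * q)) (hp.choose :: (cas a z σ).2) = cas a (z * q) σ
      rw [one_mul, cas_pos a _ _ _ ⟨q, rfl⟩, ← mul_assoc, ← hp.choose_spec, ← cas_mul]
    · left
      intro u
      simp only [List.foldl_cons, List.foldl_nil, step]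
      rw [dif_neg hp]

theorem ana (a : M) : io a a * nu a * io a a = io a a := by
  rw [io_def, nu, ← mk_append, ← mk_append, mk_eq]
  intro c u
  cases c with
  | none => rfl
  | some c =>
    obtain ⟨z, σ⟩ := c
    have hp : ∃ p, (cas a (z * a) σ).1 = p * a := by
      obtain ⟨r, hr⟩ := cas_left a σ (z * a)
      exact ⟨r * z, by rw [hr, mul_assoc]⟩
    simp only [List.cons_append, List.nil_append, List.foldl_cons, List.foldl_nil, step]
    rw [dif_pos hp]
    apply eqv_of_cas a u (1 * a, hp.choose :: (cas a (z * a) σ).2) (z * a, σ)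
    show cas a (1 * a) (hp.choose :: (cas a (z * a) σ).2) = cas a (z * a) σ
    rw [one_mul, cas_pos a _ _ _ ⟨1, by simp⟩, ← hp.choose_spec, cas_idem]

theorem pana (a p q : M) : io a (p * a) * nu a * io a (a * q) = io a (p * a * q) := by
  rw [map_mul, map_mul, map_mul, map_mul]
  calc io a p * io a a * nu a * (io a a * io a q)
      = io a p * (io a a * nu a * io a a) * io a q := by simp only [mul_assoc]
    _ = _ := by rw [ana]

end Pool.Agent.H302.RA
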