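import Mathlib
import Pool.Agent.H302.RA.Fin

namespace Pool.Agent.H302.RA

open Classical

variable {M : Type} [Monoid M]

/-- some power is stable -/
def EC {T : Type*} [Monoid T] (x : T) : Prop := ∃ N, x ^ N = x ^ (N + 1)

theorem EC_comm {T : Type*} [Monoid T] {x y : T} (h : EC (x * y)) : EC (y * x) := by
  have key : ∀ n : ℕ, (y * x) ^ (n + 1) = y * (x * y) ^ n * x := by
    intro n
    induction n with
    | zero => simp
    | succ n ih => rw [pow_succ, ih, pow_succ (x * y) n]; simp only [mul_assoc]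
  obtain ⟨N, hN⟩ := h
  refine ⟨N + 1, ?_⟩
  rw [key, key, hN]

/-- product of a cascade -/
def Pm : List M → M
  | [] => 1
  | p :: φ => Pm φ * p

def stk (φ σ : List M) : ℕ → List M
  | 0 => σ
  | j + 1 => φ ++ stk φ σ j

section fin
variable [Finite M]

theorem lemmaP (a : M) : ∀ (φ : List M) (y : M),
    (∀ τ, cas a y (φ ++ τ) = cas a (Pm φ * y) τ) ∨
    (∃ x' ψ, (¬ ∃ q, x' = a * q) ∧ mu x' ≤ mu y ∧ ∀ τ, cas a y (φ ++ τ) = (x', ψ ++ τ)) := by
  intro φ
  induction φ with
  | nil => intro y; left; intro τ; simp [Pm]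
  | cons p φ ih =>
    intro y
    by_cases hy : ∃ q, y = a * q
    · rcases ih (p * y) with h | ⟨x', ψ, h1, h2, h3⟩
      · left
        intro τ
        rw [List.cons_append, cas_pos a y p _ hy, h]
        simp only [Pm, mul_assoc]
      · right
        refine ⟨x', ψ, h1, h2.trans (mu_left p y), ?_⟩
        intro τ
        rw [List.cons_append, cas_pos a y p _ hy, h3]
    · right
      exact ⟨y, p :: φ, hy, le_refl _, fun τ => cas_neg a y _ hy⟩

theorem eqv_of_cas' (a : M) (y z : M) (σ τ : List M) (h : cas a y σ = cas a z τ) :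
    Eqv a (some (y, σ)) (some (z, τ)) := fun u => eqv_of_cas a u (y, σ) (z, τ) h

def MH (a : M) (φ : List M) (h N : ℕ) : Prop :=
  ∀ x : M, mu x ≤ h → (¬ ∃ q, x = a * q) → ∀ (ψ σ : List M) (j : ℕ), N ≤ j →
    Eqv a (some (x, ψ ++ stk φ σ j)) (some (x, ψ ++ stk φ σ (j + 1)))

theorem stage (a : M) (φ : List M) (h N : ℕ) (hM : MH a φ h N) : ∀ (r : ℕ) (y : M),
    mu y ≤ h → Pm φ * (Pm φ ^ r * y) = Pm φ ^ r * y → ∀ (σ : List M) (j : ℕ), N + r + 1 ≤ j →
    Eqv a (some (y, stk φ σ j)) (some (y, stk φ σ (j + 1))) := by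
  intro r
  induction r with
  | zero =>
    intro y hy hP σ j hj
    obtain ⟨j, rfl⟩ : ∃ j', j = j' + 1 := ⟨j - 1, by omega⟩
    rcases lemmaP a φ y with h1 | ⟨x', ψ, h1, h2, h3⟩
    · apply Eqv.symm
      apply eqv_of_cas'
      show cas a y (φ ++ stk φ σ (j + 1)) = _
      rw [h1]
      have : Pm φ * y = y := by simpa using hP
      rw [this]
    · have e1 : cas a y (stk φ σ (j + 1)) = (x', ψ ++ stk φ σ j) := h3 _
      have e2 : cas a y (stk φ σ (j + 1 + 1)) = (x', ψ ++ stk φ σ (j + 1)) := h3 _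
      have f1 := eqv_cas a y (stk φ σ (j + 1))
      have f2 := eqv_cas a y (stk φ σ (j + 1 + 1))
      rw [e1] at f1; rw [e2] at f2
      exact (f1.trans (hM x' (h2.trans hy) h1 ψ σ j (by omega))).trans f2.symm
  | succ r ih =>
    intro y hy hP σ j hj
    obtain ⟨j, rfl⟩ : ∃ j', j = j' + 1 := ⟨j - 1, by omega⟩
    rcases lemmaP a φ y with h1 | ⟨x', ψ, h1, h2, h3⟩
    · have e1 : Eqv a (some (y, stk φ σ (j + 1))) (some (Pm φ * y, stk φ σ j)) :=
        eqv_of_cas' a _ _ _ _ (h1 _)
      have e2 : Eqv a (some (y, stk φ σ (j + 1 + 1))) (some (Pm φ * y, stk φ σ (j + 1))) :=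
        eqv_of_cas' a _ _ _ _ (h1 _)
      have e3 := ih (Pm φ * y) ((mu_left _ _).trans hy) (by
        have : Pm φ ^ r * (Pm φ * y) = Pm φ ^ (r + 1) * y := by
          rw [pow_succ, mul_assoc]
        rw [this]; exact hP) σ j (by omega)
      exact (e1.trans e3).trans e2.symm
    · have e1 : cas a y (stk φ σ (j + 1)) = (x', ψ ++ stk φ σ j) := h3 _
      have e2 : cas a y (stk φ σ (j + 1 + 1)) = (x', ψ ++ stk φ σ (j + 1)) := h3 _
      have f1 := eqv_cas a y (stk φ σ (j + 1))
      have f2 := eqv_cas a y (stk φ σ (j + 1 + 1))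
      rw [e1] at f1; rw [e2] at f2
      exact (f1.trans (hM x' (h2.trans hy) h1 ψ σ j (by omega))).trans f2.symm

theorem MH_all (a : M) (φ : List M) (hφ : φ ≠ []) (R : ℕ) (hR : Pm φ ^ R = Pm φ ^ (R + 1)) :
    ∀ h : ℕ, ∃ N, MH a φ h N := by
  intro h
  induction h with
  | zero =>
    refine ⟨0, ?_⟩
    intro x hx
    have := mu_pos x
    omega
  | succ h ih =>
    obtain ⟨N, hN⟩ := ih
    refine ⟨N + R + 2, ?_⟩
    intro x hx hxa ψ σ j hj
    apply lemmaK
    · obtain ⟨j, rfl⟩ : ∃ j', j = j' + 1 := ⟨j - 1, by omega⟩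
      simp [stk, hφ]
    · intro m hm
      have hlt := mu_lt a x m hxa hm
      have hle : mu (x * m) ≤ h := by omega
      rcases lemmaP a ψ (x * m) with h1 | ⟨x', ψ', h1, h2, h3⟩
      · have e1 : Eqv a (some (x * m, ψ ++ stk φ σ j)) (some (Pm ψ * (x * m), stk φ σ j)) :=
          eqv_of_cas' a _ _ _ _ (h1 _)
        have e2 : Eqv a (some (x * m, ψ ++ stk φ σ (j + 1)))
            (some (Pm ψ * (x * m), stk φ σ (j + 1))) :=
          eqv_of_cas' a _ _ _ _ (h1 _)
        have e3 := stage a φ h N hN R (Pm ψ * (x * m)) ((mu_left _ _).trans hle) (by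
          rw [← mul_assoc, ← pow_succ', ← hR]) σ j (by omega)
        exact (e1.trans e3).trans e2.symm
      · have f1 := eqv_cas a (x * m) (ψ ++ stk φ σ j)
        have f2 := eqv_cas a (x * m) (ψ ++ stk φ σ (j + 1))
        rw [h3] at f1; rw [h3] at f2
        exact (f1.trans (hN x' (h2.trans hle) h1 ψ' σ j (by omega))).trans f2.symm

theorem stable_one (a : M) (φ : List M) (hφ : φ ≠ []) (R : ℕ)
    (hR : Pm φ ^ R = Pm φ ^ (R + 1)) :
    ∃ N, ∀ (σ : List M) (j : ℕ), N ≤ j →
      Eqv a (some (1, stk φ σ j)) (some (1, stk φ σ (j + 1))) := by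
  obtain ⟨N, hN⟩ := MH_all a φ hφ R hR (Nat.card M)
  refine ⟨N + R + 1, ?_⟩
  intro σ j hj
  exact stage a φ _ N hN R 1 (mu_le _) (by
    rw [← mul_assoc, ← pow_succ', ← hR]) σ j hj

end fin

/-- word `∏ s n` -/
def WL : List M → List (Lt M)
  | [] => []
  | s :: l => Lt.m s :: Lt.n :: WL l

def upow (u : List (Lt M)) : ℕ → List (Lt M)
  | 0 => []
  | j + 1 => u ++ upow u j

theorem mk_upow (a : M) (u : List (Lt M)) (j : ℕ) : mk a (upow u j) = mk a u ^ j := by
  induction j with
  | zero => rfl
  | succ j ih => rw [upow, mk_append, ih, pow_succ']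

theorem mk_WL_cons (a s : M) (l : List M) :
    mk a (WL (s :: l)) = io a s * nu a * mk a (WL l) := by
  rw [io_def, nu, ← mk_append, ← mk_append]; rfl

theorem mk_WL_append (a : M) (l l' : List M) :
    mk a (WL (l ++ l')) = mk a (WL l) * mk a (WL l') := by
  induction l with
  | nil => simp [WL, mk_nil]
  | cons s l ih => rw [List.cons_append, mk_WL_cons, ih, mk_WL_cons]; simp only [mul_assoc]

/-- no reducible adjacent pair. -/
def Ch (a : M) : List M → Prop
  | [] => True
  | [_] => True
  | s :: t :: l => ¬ ((∃ p, s = p * a) ∧ (∃ q, t = a * q)) ∧ Ch a (t :: l)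

theorem Ch_or (a : M) : ∀ l : List M, Ch a l ∨ ∃ l1 s t l2, l = l1 ++ s :: t :: l2 ∧
    (∃ p, s = p * a) ∧ (∃ q, t = a * q) := by
  intro l
  induction l with
  | nil => left; trivial
  | cons s l ih =>
    cases l with
    | nil => left; trivial
    | cons t l =>
      rcases ih with h | ⟨l1, s', t', l2, h1, h2, h3⟩
      · by_cases hh : ((∃ p, s = p * a) ∧ (∃ q, t = a * q))
        · right; exact ⟨[], s, t, l, rfl, hh.1, hh.2⟩
        · left; exact ⟨hh, h⟩
      · right; exact ⟨s :: l1, s', t', l2, by rw [h1]; rfl, h2, h3⟩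

/-- case N -/
theorem caseN (a : M) : ∀ l : List M, Ch a l → (∀ s ∈ l.head?, ¬ ∃ q, s = a * q) →
    (∃ s ∈ l, ¬ ∃ p, s = p * a) → ∀ σ, (WL l).foldl (step a) (some (1, σ)) = none := by
  intro l
  induction l with
  | nil => intro _ _ h; simp at h
  | cons s l ih =>
    intro hc hh hex σ
    have hs : ¬ ∃ q, s = a * q := hh s (by simp)
    simp only [WL, List.foldl_cons, step, one_mul, cas_neg a s σ hs]
    by_cases hp : ∃ p, s = p * a
    · rw [dif_pos hp]
      apply ih
      · cases l with
        | nil => trivial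
        | cons t l => exact hc.2
      · cases l with
        | nil => simp
        | cons t l =>
          intro x hx
          simp only [List.head?_cons, Option.mem_def, Option.some.injEq] at hx
          subst hx
          intro hq
          exact hc.1 ⟨hp, hq⟩
      · obtain ⟨x, hx, hx'⟩ := hex
        rcases List.mem_cons.mp hx with rfl | hx
        · exact absurd hp hx'
        · exact ⟨x, hx, hx'⟩
    · rw [dif_neg hp]
      exact foldl_none a _

/-- case R -/
theorem caseR (a : M) : ∀ l : List M, Ch a l → (∀ s ∈ l.head?, ¬ ∃ q, s = a * q) →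
    (∀ s ∈ l, ∃ p, s = p * a) → ∃ φ : List M, φ.length = l.length ∧
      ∀ σ, (WL l).foldl (step a) (some (1, σ)) = some (1, φ ++ σ) := by
  intro l
  induction l with
  | nil => intro _ _ _; exact ⟨[], rfl, fun σ => rfl⟩
  | cons s l ih =>
    intro hc hh hall
    have hs : ¬ ∃ q, s = a * q := hh s (by simp)
    have hp : ∃ p, s = p * a := hall s (by simp)
    obtain ⟨φ, h1, h2⟩ := ih (by
      cases l with
      | nil => trivial
      | cons t l => exact hc.2) (by
      cases l with
      | nil => simp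
      | cons t l =>
        intro x hx
        simp only [List.head?_cons, Option.mem_def, Option.some.injEq] at hx
        subst hx
        intro hq
        exact hc.1 ⟨hp, hq⟩) (fun x hx => hall x (by simp [hx]))
    refine ⟨φ ++ [hp.choose], by simp [h1], ?_⟩
    intro σ
    simp only [WL, List.foldl_cons, step, one_mul, cas_neg a s σ hs]
    rw [dif_pos hp, h2]
    simp

theorem after_WL (a : M) (l : List M) (hl : l ≠ []) (c : Option (M × List M)) :
    (WL l).foldl (step a) c = none ∨ ∃ σ, (WL l).foldl (step a) c = some (1, σ) := by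
  have : ∀ (l : List M) (c : Option (M × List M)), (c = none ∨ ∃ σ, c = some (1, σ)) →
      ((WL l).foldl (step a) c = none ∨ ∃ σ, (WL l).foldl (step a) c = some (1, σ)) := by
    intro l
    induction l with
    | nil => intro c h; exact h
    | cons s l ih =>
      intro c _
      simp only [WL, List.foldl_cons]
      apply ih
      cases c with
      | none => left; rfl
      | some c =>
        simp only [step]
        split
        · right; exact ⟨_, rfl⟩
        · left; rfl
  cases l with
  | nil => exact absurd rfl hl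
  | cons s l =>
    simp only [WL, List.foldl_cons]
    apply this
    cases c with
    | none => left; rfl
    | some c =>
      simp only [step]
      split
      · right; exact ⟨_, rfl⟩
      · left; rfl

end Pool.Agent.H302.RA
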