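import Mathlib
import Pool.Agent.H302.RA.Aper

namespace Pool.Agent.H302.RA

open Classical

variable {M : Type} [Monoid M]

theorem EC_N (a : M) (l : List M) (hc : Ch a l) (hh : ∀ s ∈ l.head?, ¬ ∃ q, s = a * q)
    (hex : ∃ s ∈ l, ¬ ∃ p, s = p * a) : EC (mk a (WL l)) := by
  have hl : l ≠ [] := by
    rintro rfl
    simp at hex
  have key : ∀ c, (WL l ++ WL l).foldl (step a) c = none := by
    intro c
    rw [List.foldl_append]
    rcases after_WL a l hl c with h | ⟨σ, h⟩
    · rw [h]; exact foldl_none a _
    · rw [h]; exact caseN a l hc hh hex σ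
  refine ⟨2, ?_⟩
  rw [pow_succ (mk a (WL l)) 2, pow_two, ← mk_append, ← mk_append, mk_eq]
  intro c
  rw [List.foldl_append (l := WL l ++ WL l), key, foldl_none]
  exact Eqv.refl _ _

section fin
variable [Finite M]

theorem EC_R (hM : ∀ x : M, EC x) (a : M) (l : List M) (hl : l ≠ []) (hc : Ch a l)
    (hh : ∀ s ∈ l.head?, ¬ ∃ q, s = a * q)
    (hall : ∀ s ∈ l, ∃ p, s = p * a) : EC (mk a (WL l)) := by
  obtain ⟨φ, h1, h2⟩ := caseR a l hc hh hall
  have hφ : φ ≠ [] := by
    intro h
    rw [h] at h1
    apply hl
    exact List.length_eq_zero_iff.mp h1.symm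
  obtain ⟨R, hR⟩ := hM (Pm φ)
  obtain ⟨N, hN⟩ := stable_one a φ hφ R hR
  have key : ∀ (j : ℕ) (σ : List M), (upow (WL l) j).foldl (step a) (some (1, σ)) =
      some (1, stk φ σ j) := by
    intro j
    induction j with
    | zero => intro σ; rfl
    | succ j ih =>
      intro σ
      rw [upow, List.foldl_append, h2, ih]
      have : ∀ j, stk φ (φ ++ σ) j = stk φ σ (j + 1) := by
        intro j
        induction j with
        | zero => rfl
        | succ j ih => rw [stk, ih]; rfl
      rw [this]
  refine ⟨N + 1, ?_⟩
  rw [← mk_upow, ← mk_upow, mk_eq]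
  intro c
  rw [upow, List.foldl_append, upow, List.foldl_append (l := WL l)]
  rcases after_WL a l hl c with h | ⟨σ, h⟩
  · rw [h, foldl_none, foldl_none]; exact Eqv.refl _ _
  · rw [h, key, key]; exact hN σ N le_rfl

end fin

/-- word `∏ n (a q)` -/
def VL (a : M) : List M → List (Lt M)
  | [] => []
  | q :: l => Lt.n :: Lt.m (a * q) :: VL a l

theorem mk_VL_cons (a q : M) (l : List M) :
    mk a (VL a (q :: l)) = nu a * io a (a * q) * mk a (VL a l) := by
  rw [io_def, nu, ← mk_append, ← mk_append]; rfl

theorem mk_VL_append (a : M) (l l' : List M) :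
    mk a (VL a (l ++ l')) = mk a (VL a l) * mk a (VL a l') := by
  induction l with
  | nil => simp [VL, mk_nil]
  | cons s l ih => rw [List.cons_append, mk_VL_cons, ih, mk_VL_cons]; simp only [mul_assoc]

/-- effect of `VL`. -/
theorem VL_effect (a : M) : ∀ l : List M, ∃ Q : M, ∀ c,
    Eqv a ((VL a l).foldl (step a) c) none ∨
    Eqv a ((VL a l).foldl (step a) c) ([Lt.m Q].foldl (step a) c) := by
  intro l
  induction l with
  | nil =>
    refine ⟨1, ?_⟩
    intro c
    right
    cases c with
    | none => exact Eqv.refl _ _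
    | some c => simp [VL, step]; exact Eqv.refl _ _
  | cons q l ih =>
    obtain ⟨Q, hQ⟩ := ih
    refine ⟨q * Q, ?_⟩
    intro c
    have e : (VL a (q :: l)).foldl (step a) c =
        (VL a l).foldl (step a) ([Lt.n, Lt.m (a * q)].foldl (step a) c) := rfl
    rw [e]
    rcases run_na a c q with h | h
    · left
      have := h.run (VL a l)
      rw [foldl_none] at this
      exact this
    · have h1 := h.run (VL a l)
      rcases hQ ([Lt.m q].foldl (step a) c) with h2 | h2
      · left; exact h1.trans h2
      · right
        refine (h1.trans h2).trans ?_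
        cases c with
        | none => exact Eqv.refl _ _
        | some c => simp [step, mul_assoc]; exact Eqv.refl _ _

theorem EC_V (hM : ∀ x : M, EC x) (a : M) (l : List M) : EC (mk a (VL a l)) := by
  obtain ⟨Q, hQ⟩ := VL_effect a l
  obtain ⟨N, hN⟩ := hM Q
  -- dichotomy for powers
  have dich : ∀ (j : ℕ) (c), Eqv a ((upow (VL a l) j).foldl (step a) c) none ∨
      Eqv a ((upow (VL a l) j).foldl (step a) c) ([Lt.m (Q ^ j)].foldl (step a) c) := by
    intro j
    induction j with
    | zero =>
      intro c
      right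
      cases c with
      | none => exact Eqv.refl _ _
      | some c => simp [upow, step]; exact Eqv.refl _ _
    | succ j ih =>
      intro c
      rw [upow, List.foldl_append]
      rcases hQ c with h | h
      · left
        have := h.run (upow (VL a l) j)
        rw [foldl_none] at this
        exact this
      · have h1 := h.run (upow (VL a l) j)
        rcases ih ([Lt.m Q].foldl (step a) c) with h2 | h2
        · left; exact h1.trans h2
        · right
          refine (h1.trans h2).trans ?_
          cases c with
          | none => exact Eqv.refl _ _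
          | some c => simp [step, mul_assoc, pow_succ']; exact Eqv.refl _ _
  have hstep : ∀ j c, Eqv a ((upow (VL a l) (j + 1)).foldl (step a) c)
      ((VL a l).foldl (step a) ((upow (VL a l) j).foldl (step a) c)) := by
    intro j c
    have : mk a (upow (VL a l) (j + 1)) = mk a (upow (VL a l) j ++ VL a l) := by
      rw [mk_append, mk_upow, mk_upow, pow_succ]
    rw [mk_eq] at this
    have h2 := this c
    rw [List.foldl_append] at h2
    exact h2
  refine ⟨N + 1, ?_⟩
  rw [← mk_upow, ← mk_upow, mk_eq]
  intro c
  by_cases hd : Eqv a ((upow (VL a l) (N + 1)).foldl (step a) c) none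
  · have h1 := hstep (N + 1) c
    have h2 := hd.run (VL a l)
    rw [foldl_none] at h2
    exact hd.trans (h1.trans h2).symm
  · have h1 : ¬ Eqv a ((upow (VL a l) N).foldl (step a) c) none := by
      intro h
      apply hd
      have h2 := h.run (VL a l)
      rw [foldl_none] at h2
      exact (hstep N c).trans h2
    have e1 := (dich (N + 1) c).resolve_left hd
    have e2 := (dich N c).resolve_left h1
    rw [← hN] at e1
    -- V^N = V^(N+1) at c
    have e3 := e2.trans e1.symm
    have e4 := e3.run (VL a l)
    exact (hstep N c).trans (e4.trans (hstep (N + 1) c).symm)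

/-- case L -/
theorem VL_nu (a : M) (l : List M) :
    mk a (VL a l) * nu a = nu a * mk a (WL (l.map (fun q => a * q))) := by
  induction l with
  | nil => simp [VL, WL, mk_nil]
  | cons q l ih =>
    rw [mk_VL_cons, mul_assoc, ih, List.map_cons, mk_WL_cons]
    simp only [mul_assoc]

theorem EC_L (hM : ∀ x : M, EC x) (a : M) (l : List M) (hall : ∀ s ∈ l, ∃ q, s = a * q) :
    EC (mk a (WL l)) := by
  have : ∃ l' : List M, l = l'.map (fun q => a * q) := by
    induction l with
    | nil => exact ⟨[], rfl⟩
    | cons s l ih =>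
      obtain ⟨l', hl'⟩ := ih (fun x hx => hall x (by simp [hx]))
      obtain ⟨q, hq⟩ := hall s (by simp)
      exact ⟨q :: l', by rw [List.map_cons, ← hl', hq]⟩
  obtain ⟨l', rfl⟩ := this
  cases l' with
  | nil => exact ⟨0, by simp [WL, mk_nil]⟩
  | cons q l' =>
    have h1 := EC_V hM a (l' ++ [q])
    have h2 : mk a (VL a (l' ++ [q])) =
        (nu a * mk a (WL (l'.map (fun q => a * q)))) * io a (a * q) := by
      rw [mk_VL_append, mk_VL_cons, ← VL_nu]
      simp [VL, mk_nil, mul_assoc]
    rw [h2] at h1
    have h3 := EC_comm h1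
    rw [List.map_cons, mk_WL_cons, mul_assoc]
    exact h3

section fin
variable [Finite M]

theorem EC_W (hM : ∀ x : M, EC x) (a : M) : ∀ (k : ℕ) (l : List M), l.length = k →
    EC (mk a (WL l)) := by
  intro k
  induction k using Nat.strong_induction_on with
  | _ k ih =>
    intro l hlen
    by_cases hL : ∀ s ∈ l, ∃ q, s = a * q
    · exact EC_L hM a l hL
    · push Not at hL
      obtain ⟨s, hs, hsa⟩ := hL
      obtain ⟨l1, l2, rfl⟩ := List.append_of_mem hs
      have hred : EC (mk a (WL ((s :: l2) ++ l1))) := by
        rcases Ch_or a ((s :: l2) ++ l1) with hc | ⟨m1, x, y, m2, h1, ⟨p, hp⟩, ⟨q, hq⟩⟩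
        · have hh : ∀ t ∈ ((s :: l2) ++ l1).head?, ¬ ∃ q, t = a * q := by
            intro t ht
            simp at ht
            subst ht
            rintro ⟨q, hq⟩
            exact hsa q hq
          by_cases hR : ∀ t ∈ ((s :: l2) ++ l1), ∃ p, t = p * a
          · exact EC_R hM a _ (by simp) hc hh hR
          · push Not at hR
            obtain ⟨t, ht, hta⟩ := hR
            exact EC_N a _ hc hh ⟨t, ht, by rintro ⟨p, hp⟩; exact hta p hp⟩
        · rw [h1, mk_WL_append, mk_WL_cons, mk_WL_cons, hp, hq]
          have e : mk a (WL m1) * (io a (p * a) * nu a * (io a (a * q) * nu a * mk a (WL m2))) =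
              mk a (WL (m1 ++ (p * a * q) :: m2)) := by
            rw [mk_WL_append, mk_WL_cons, ← pana]
            simp only [mul_assoc]
          rw [e]
          apply ih (m1 ++ (p * a * q) :: m2).length _ _ rfl
          have := congrArg List.length h1
          simp at this hlen ⊢
          omega
      rw [mk_WL_append] at hred
      rw [mk_WL_append]
      exact EC_comm hred

theorem normal (a : M) : ∀ u : List (Lt M), ∃ (l : List M) (m : M),
    mk a u = mk a (WL l) * io a m := by
  intro u
  induction u using List.reverseRecOn with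
  | nil => exact ⟨[], 1, by simp [WL, mk_nil]⟩
  | append_singleton u x ih =>
    obtain ⟨l, m, h⟩ := ih
    rw [mk_append, h]
    cases x with
    | m y =>
      refine ⟨l, m * y, ?_⟩
      rw [map_mul, mul_assoc]; rfl
    | n =>
      refine ⟨l ++ [m], 1, ?_⟩
      rw [mk_WL_append, mk_WL_cons]
      simp [WL, mk_nil, mul_assoc]; rfl

theorem EC_all (hM : ∀ x : M, EC x) (a : M) (x : TT a) : EC x := by
  obtain ⟨u, rfl⟩ := mk_surj a x
  obtain ⟨l, m, h⟩ := normal a u
  rw [h]
  cases l with
  | nil =>
    obtain ⟨N, hN⟩ := hM m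
    refine ⟨N, ?_⟩
    simp only [WL, mk_nil, one_mul]
    rw [← map_pow, ← map_pow, hN]
  | cons s l =>
    apply EC_comm
    rw [mk_WL_cons, ← mul_assoc, ← mul_assoc, ← map_mul, ← mk_WL_cons]
    exact EC_W hM a _ _ rfl

/-- One-step extension for monoids. -/
theorem one_step_monoid (hM : ∀ x : M, EC x) (a : M) :
    ∃ (T : Type) (_ : Monoid T) (_ : Finite T) (f : M →* T) (ν : T),
      Function.Injective f ∧ (∀ x : T, EC x) ∧ f a * ν * f a = f a :=
  ⟨TT a, inferInstance, TT_finite a, io a, nu a, io_inj a, EC_all hM a, ana a⟩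

end fin

end Pool.Agent.H302.RA
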