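import Mathlib
import Pool.Agent.H302.RA.Main

namespace Pool.Agent.H302.RA

/-- `S` is aperiodic: every subgroup is trivial (an element `x` with a two-sided inverse `y`
relative to an idempotent `e` is equal to `e`). -/
def Aper (S : Type) [Semigroup S] : Prop :=
  ∀ e x y : S, e * e = e → e * x = x → x * e = x → e * y = y → y * e = y →
    x * y = e → y * x = e → x = e

theorem EC_of_Aper (S : Type) [Semigroup S] [Finite S] (h : Aper S) (x : WithOne S) : EC x := by
  by_cases hx1 : x = 1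
  · subst hx1; exact ⟨0, by simp⟩
  · obtain ⟨s, rfl⟩ := WithOne.ne_one_iff_exists.mp hx1
    have hpow : ∀ n : ℕ, ∃ t : S, ((s : WithOne S)) ^ (n + 1) = (t : WithOne S) := by
      intro n
      induction n with
      | zero => exact ⟨s, by simp⟩
      | succ n ih =>
        obtain ⟨t, ht⟩ := ih
        exact ⟨t * s, by rw [pow_succ, ht, WithOne.coe_mul]⟩
    have : Finite (WithOne S) := inferInstanceAs (Finite (Option S))
    have hinj : ¬ Function.Injective (fun n : ℕ => ((s : WithOne S)) ^ (n + 1)) :=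
      not_injective_infinite_finite _
    have hex : ∃ i j : ℕ, i < j ∧ ((s : WithOne S)) ^ (i + 1) = ((s : WithOne S)) ^ (j + 1) := by
      unfold Function.Injective at hinj
      push Not at hinj
      obtain ⟨i, j, h1, h2⟩ := hinj
      rcases Nat.lt_or_gt_of_ne h2 with h3 | h3
      · exact ⟨i, j, h3, h1⟩
      · exact ⟨j, i, h3, h1.symm⟩
    obtain ⟨i, j, hij, he⟩ := hex
    set x : WithOne S := (s : WithOne S) with hx
    obtain ⟨p, rfl⟩ : ∃ p, j = i + p := ⟨j - i, by omega⟩
    have hp : 0 < p := by omega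
    have hper : ∀ k, i + 1 ≤ k → x ^ (k + p) = x ^ k := by
      intro k hk
      obtain ⟨r, rfl⟩ : ∃ r, k = i + 1 + r := ⟨k - (i + 1), by omega⟩
      calc x ^ (i + 1 + r + p) = x ^ (i + p + 1) * x ^ r := by rw [← pow_add]; congr 1; omega
        _ = x ^ (i + 1) * x ^ r := by rw [he]
        _ = _ := by rw [← pow_add]
    have hper2 : ∀ t k, i + 1 ≤ k → x ^ (k + t * p) = x ^ k := by
      intro t
      induction t with
      | zero => intro k _; simp
      | succ t ih =>
        intro k hk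
        have : k + (t + 1) * p = (k + t * p) + p := by ring
        rw [this, hper _ (by omega), ih k hk]
    obtain ⟨k, hk⟩ : ∃ k, k = (i + 1) * p := ⟨_, rfl⟩
    have hk1 : i + 1 ≤ k := by rw [hk]; exact Nat.le_mul_of_pos_right _ hp
    have hid : ∀ m, k ≤ m → x ^ (m + k) = x ^ m := by
      intro m hm
      have := hper2 (i + 1) m (by omega)
      rw [← hk] at this
      exact this
    obtain ⟨e, hee⟩ := hpow (k - 1)
    obtain ⟨g, hg⟩ := hpow k
    obtain ⟨y, hy⟩ := hpow (2 * k - 2)
    have hek : x ^ k = (e : WithOne S) := by rw [← hee]; congr 1; omega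
    have hyk : x ^ (2 * k - 1) = (y : WithOne S) := by rw [← hy]; congr 1; omega
    have c1 : e * e = e := by
      apply WithOne.coe_injective; rw [WithOne.coe_mul, ← hek, ← pow_add]; exact hid k le_rfl
    have c2 : e * g = g := by
      apply WithOne.coe_injective
      rw [WithOne.coe_mul, ← hek, ← hg, ← pow_add, add_comm]; exact hid _ (by omega)
    have c3 : g * e = g := by
      apply WithOne.coe_injective
      rw [WithOne.coe_mul, ← hek, ← hg, ← pow_add]; exact hid _ (by omega)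
    have c4 : e * y = y := by
      apply WithOne.coe_injective
      rw [WithOne.coe_mul, ← hek, ← hyk, ← pow_add, add_comm]; exact hid _ (by omega)
    have c5 : y * e = y := by
      apply WithOne.coe_injective
      rw [WithOne.coe_mul, ← hek, ← hyk, ← pow_add]; exact hid _ (by omega)
    have c6 : g * y = e := by
      apply WithOne.coe_injective
      rw [WithOne.coe_mul, ← hek, ← hyk, ← hg, ← pow_add]
      have : k + 1 + (2 * k - 1) = k + k + k := by omega
      rw [this, hid _ (by omega), hid _ le_rfl]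
    have c7 : y * g = e := by
      apply WithOne.coe_injective
      rw [WithOne.coe_mul, ← hek, ← hyk, ← hg, ← pow_add]
      have : 2 * k - 1 + (k + 1) = k + k + k := by omega
      rw [this, hid _ (by omega), hid _ le_rfl]
    have := h e g y c1 c2 c3 c4 c5 c6 c7
    refine ⟨k, ?_⟩
    rw [hek, hg, this]

theorem Aper_of_EC (T : Type) [Monoid T] (h : ∀ x : T, EC x) : Aper T := by
  intro e x y he hex hxe hey hye hxy hyx
  obtain ⟨N, hN⟩ := h x
  have h1 : ∀ n : ℕ, x ^ (n + 1) * y ^ (n + 1) = e := by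
    intro n
    induction n with
    | zero => simpa using hxy
    | succ n ih =>
      calc x ^ (n + 1 + 1) * y ^ (n + 1 + 1) = x ^ (n + 1) * (x * y) * y ^ (n + 1) := by
            rw [pow_succ x (n + 1), pow_succ' y (n + 1)]; simp only [mul_assoc]
        _ = x ^ (n + 1) * (e * y ^ (n + 1)) := by rw [hxy, mul_assoc]
        _ = x ^ (n + 1) * y ^ (n + 1) := by
            rw [pow_succ' y n, ← mul_assoc e, hey]
        _ = e := ih
  have h2 : x ^ (N + 2) = x ^ (N + 1) := by
    rw [pow_succ, ← hN, ← pow_succ]; exact hN.symm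
  calc x = x * e := hxe.symm
    _ = x * (x ^ (N + 1) * y ^ (N + 1)) := by rw [h1]
    _ = x ^ (N + 2) * y ^ (N + 1) := by rw [pow_succ' x (N + 1), mul_assoc]
    _ = x ^ (N + 1) * y ^ (N + 1) := by rw [h2]
    _ = e := h1 N

/-- bundled finite aperiodic semigroups -/
structure FA where
  T : Type
  [inst : Semigroup T]
  [fin : Finite T]
  ap : Aper T

attribute [instance] FA.inst FA.fin

theorem one_step (A : FA) (a : A.T) : ∃ (B : FA) (f : A.T →ₙ* B.T) (ν : B.T),
    Function.Injective f ∧ f a * ν * f a = f a := by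
  have : Finite (WithOne A.T) := inferInstanceAs (Finite (Option A.T))
  obtain ⟨T, i1, i2, f, ν, h1, h2, h3⟩ :=
    one_step_monoid (M := WithOne A.T) (EC_of_Aper A.T A.ap) (a : WithOne A.T)
  refine ⟨⟨T, Aper_of_EC T h2⟩, (f : WithOne A.T →ₙ* T).comp WithOne.coeMulHom, ν, ?_, ?_⟩
  · exact h1.comp WithOne.coe_injective
  · exact h3

theorem list_step : ∀ (A : FA) (L : List A.T), ∃ (B : FA) (f : A.T →ₙ* B.T),
    Function.Injective f ∧ ∀ a ∈ L, ∃ ν, f a * ν * f a = f a := by
  intro A L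
  induction L with
  | nil => exact ⟨A, MulHom.id _, Function.injective_id, by simp⟩
  | cons a L ih =>
    obtain ⟨B, f, h1, h2⟩ := ih
    obtain ⟨C, g, ν, h3, h4⟩ := one_step B (f a)
    refine ⟨C, g.comp f, h3.comp h1, ?_⟩
    intro b hb
    rcases List.mem_cons.mp hb with rfl | hb
    · exact ⟨ν, h4⟩
    · obtain ⟨μ, hμ⟩ := h2 b hb
      refine ⟨g μ, ?_⟩
      show g (f b) * g μ * g (f b) = g (f b)
      rw [← map_mul, ← map_mul, hμ]

theorem all_step (A : FA) : ∃ (B : FA) (f : A.T →ₙ* B.T),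
    Function.Injective f ∧ ∀ a, ∃ ν, f a * ν * f a = f a := by
  obtain ⟨L, hL⟩ := Finite.exists_univ_list A.T
  obtain ⟨B, f, h1, h2⟩ := list_step A L
  exact ⟨B, f, h1, fun a => h2 a (hL.2 a)⟩

noncomputable def nxt (A : FA) : FA := (all_step A).choose
noncomputable def emb (A : FA) : A.T →ₙ* (nxt A).T := (all_step A).choose_spec.choose
theorem emb_inj (A : FA) : Function.Injective (emb A) := (all_step A).choose_spec.choose_spec.1
theorem emb_reg (A : FA) : ∀ a, ∃ ν, emb A a * ν * emb A a = emb A a :=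
  (all_step A).choose_spec.choose_spec.2

noncomputable def sq (A : FA) : ℕ → FA
  | 0 => A
  | n + 1 => nxt (sq A n)

noncomputable def sstep (A : FA) (n : ℕ) : (sq A n).T →ₙ* (sq A (n + 1)).T := emb (sq A n)

theorem sstep_inj (A : FA) (n : ℕ) : Function.Injective (sstep A n) := emb_inj _
theorem sstep_reg (A : FA) (n : ℕ) : ∀ a, ∃ ν, sstep A n a * ν * sstep A n a = sstep A n a :=
  emb_reg _

noncomputable def smap (A : FA) (i j : ℕ) (h : i ≤ j) : (sq A i).T →ₙ* (sq A j).T :=
  Nat.leRec (motive := fun j _ => (sq A i).T →ₙ* (sq A j).T) (MulHom.id _)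
    (fun k _ f => (sstep A k).comp f) h

theorem smap_self (A : FA) (i : ℕ) (h : i ≤ i) : smap A i i h = MulHom.id _ := by
  unfold smap
  rw [Nat.leRec_self]

theorem smap_succ (A : FA) (i j : ℕ) (h : i ≤ j) :
    smap A i (j + 1) (h.trans (Nat.le_succ j)) = (sstep A j).comp (smap A i j h) := by
  unfold smap
  rw [Nat.leRec_succ]

theorem smap_smap (A : FA) (i j k : ℕ) (hij : i ≤ j) (hjk : j ≤ k) (x : (sq A i).T) :
    smap A j k hjk (smap A i j hij x) = smap A i k (hij.trans hjk) x := by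
  induction k, hjk using Nat.le_induction with
  | base => rw [smap_self]; rfl
  | succ k hjk ih =>
    rw [smap_succ A j k hjk, smap_succ A i k (hij.trans hjk)]
    show sstep _ _ _ = sstep _ _ _
    rw [ih]

theorem smap_inj (A : FA) (i j : ℕ) (h : i ≤ j) : Function.Injective (smap A i j h) := by
  induction j, h using Nat.le_induction with
  | base => rw [smap_self]; exact Function.injective_id
  | succ k hjk ih =>
    rw [smap_succ A i k hjk]
    exact (sstep_inj _ _).comp ih

instance dsys (A : FA) : DirectedSystem (fun i => (sq A i).T) (fun i j h => smap A i j h) where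
  map_self i x := by rw [smap_self]; rfl
  map_map i j k hij hjk x := smap_smap A _ _ _ _ _ x

/-- the limit -/
abbrev Lim (A : FA) : Type := DirectLimit (fun i => (sq A i).T) (fun i j h => smap A i j h)

theorem lim_mk_inj (A : FA) (i : ℕ) :
    Function.Injective (fun x : (sq A i).T => (⟦⟨i, x⟩⟧ : Lim A)) :=
  DirectLimit.mk_injective _ (fun i j h => smap_inj A i j h) i

theorem lim_mul (A : FA) (i : ℕ) (x y : (sq A i).T) :
    (⟦⟨i, x⟩⟧ : Lim A) * ⟦⟨i, y⟩⟧ = ⟦⟨i, x * y⟩⟧ := DirectLimit.mul_def _ _ _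

theorem lim_regular (A : FA) (x : Lim A) : ∃ y : Lim A, x * y * x = x := by
  obtain ⟨i, a, rfl⟩ := DirectLimit.exists_eq_mk _ x
  obtain ⟨ν, hν⟩ := sstep_reg A i a
  have e : (⟦⟨i, a⟩⟧ : Lim A) = ⟦⟨i + 1, sstep A i a⟩⟧ := by
    have h1 : smap A i (i + 1) (Nat.le_succ i) a = sstep A i a := by
      rw [smap_succ A i i le_rfl, smap_self]; rfl
    rw [← h1]
    exact (DirectLimit.eq_of_le (f := fun i j h => smap A i j h) ⟨i, a⟩ (i + 1) (Nat.le_succ i))
  refine ⟨⟦⟨i + 1, ν⟩⟧, ?_⟩
  rw [e, lim_mul, lim_mul, hν]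

theorem lim_three (A : FA) (x y z : Lim A) : ∃ (i : ℕ) (a b c : (sq A i).T),
    x = ⟦⟨i, a⟩⟧ ∧ y = ⟦⟨i, b⟩⟧ ∧ z = ⟦⟨i, c⟩⟧ := DirectLimit.exists_eq_mk₃ _ x y z

theorem lim_aper (A : FA) : Aper (Lim A) := by
  intro e x y he hex hxe hey hye hxy hyx
  obtain ⟨i, a, b, c, rfl, rfl, rfl⟩ := lim_three A e x y
  rw [lim_mul] at he hex hxe hey hye hxy hyx
  have := (sq A i).ap a b c (lim_mk_inj A i he) (lim_mk_inj A i hex) (lim_mk_inj A i hxe)
    (lim_mk_inj A i hey) (lim_mk_inj A i hye) (lim_mk_inj A i hxy) (lim_mk_inj A i hyx)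
  rw [this]

theorem lim_countable (A : FA) : Countable (Lim A) := by
  have : ∀ i, Countable (sq A i).T := fun i => inferInstance
  exact inferInstance

theorem lim_locfin (A : FA) (F : Set (Lim A)) (hF : F.Finite) :
    ∃ H : Subsemigroup (Lim A), F ⊆ H ∧ (H : Set (Lim A)).Finite := by
  have h1 : ∃ i : ℕ, ∀ x ∈ F, ∃ a : (sq A i).T, x = ⟦⟨i, a⟩⟧ := by
    induction F, hF using Set.Finite.induction_on with
    | empty => exact ⟨0, by simp⟩
    | @insert x F _ _ ih =>
      obtain ⟨i, hi⟩ := ih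
      obtain ⟨j, b, rfl⟩ := DirectLimit.exists_eq_mk _ x
      refine ⟨max i j, ?_⟩
      have lift : ∀ (k : ℕ) (hk : k ≤ max i j) (c : (sq A k).T),
          ∃ a : (sq A (max i j)).T, (⟦⟨k, c⟩⟧ : Lim A) = ⟦⟨max i j, a⟩⟧ := by
        intro k hk c
        exact ⟨smap A k (max i j) hk c,
            DirectLimit.eq_of_le (f := fun i j h => smap A i j h) ⟨k, c⟩ (max i j) hk⟩
      intro y hy
      rcases hy with rfl | hy
      · exact lift j (le_max_right _ _) b
      · obtain ⟨a, rfl⟩ := hi y hy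
        exact lift i (le_max_left _ _) a
  obtain ⟨i, hi⟩ := h1
  refine ⟨⟨Set.range (fun x : (sq A i).T => (⟦⟨i, x⟩⟧ : Lim A)), ?_⟩, ?_, Set.finite_range _⟩
  · rintro _ _ ⟨a, rfl⟩ ⟨b, rfl⟩
    exact ⟨a * b, (lim_mul A i a b).symm⟩
  · intro x hx
    obtain ⟨a, ha⟩ := hi x hx
    exact ⟨a, ha.symm⟩

end Pool.Agent.H302.RA
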